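import Pool.Agent.H295R3.D6.Stmts

set_option autoImplicit false
set_option maxHeartbeats 4000000

open Finset Filter

namespace Pool.Agent.H941R3.D6
open Pool.Agent.H295R3.D6

theorem blk_ne_zero (a b : ℕ) : blk a b ≠ 0 := by
  unfold blk
  rw [Finset.prod_ne_zero_iff]
  intro n hn
  have := (Finset.mem_Ioc.mp hn).1
  omega

theorem blk_fact (a b q : ℕ) : (blk a b).factorization q = ∑ n ∈ Ioc a b, n.factorization q := by
  unfold blk
  rw [Nat.factorization_prod]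
  · rw [Finsupp.finsetSum_apply]
  · intro n hn
    have := (Finset.mem_Ioc.mp hn).1
    omega

theorem blk_fact_zero {a b q : ℕ} (h : b < q) : (blk a b).factorization q = 0 := by
  rw [blk_fact]
  refine Finset.sum_eq_zero (fun n hn => ?_)
  obtain ⟨h1, h2⟩ := Finset.mem_Ioc.mp hn
  refine Nat.factorization_eq_zero_of_not_dvd (fun hd => ?_)
  have := Nat.le_of_dvd (by omega) hd
  omega

theorem blk_fact_one {a b q : ℕ} (hq : q.Prime) (h1 : a < q) (h2 : q ≤ b) (h3 : b < 2 * q) :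
    (blk a b).factorization q = 1 := by
  rw [blk_fact, Finset.sum_eq_single q]
  · exact hq.factorization_self
  · intro n hn hnq
    obtain ⟨h4, h5⟩ := Finset.mem_Ioc.mp hn
    refine Nat.factorization_eq_zero_of_not_dvd (fun hd => ?_)
    obtain ⟨c, rfl⟩ := hd
    rcases Nat.lt_or_ge c 2 with hc | hc
    · interval_cases c
      · omega
      · simp at hnq
    · nlinarith
  · intro hn
    exact absurd (Finset.mem_Ioc.mpr ⟨h1, h2⟩) hn

theorem even_of_rel {m b₂ b₃ b₄ B : ℕ} (h : Rel m b₂ b₃ b₄ B) (q : ℕ) :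
    Even ((blk b₂ m).factorization q + (blk b₄ b₃).factorization q + B.factorial.factorization q) := by
  obtain ⟨r, hr⟩ := h.2.2.2.2
  have h0 : blk b₂ m * blk b₄ b₃ * B.factorial ≠ 0 :=
    mul_ne_zero (mul_ne_zero (blk_ne_zero _ _) (blk_ne_zero _ _)) (Nat.factorial_ne_zero _)
  have hr0 : r ≠ 0 := by
    rintro rfl
    simp at hr
    rcases hr with (hr | hr) | hr
    · exact blk_ne_zero _ _ hr
    · exact blk_ne_zero _ _ hr
    · exact Nat.factorial_ne_zero _ hr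
  have e : (blk b₂ m * blk b₄ b₃ * B.factorial).factorization q =
      (blk b₂ m).factorization q + (blk b₄ b₃).factorization q + B.factorial.factorization q := by
    rw [Nat.factorization_mul (mul_ne_zero (blk_ne_zero _ _) (blk_ne_zero _ _))
      (Nat.factorial_ne_zero _), Nat.factorization_mul (blk_ne_zero _ _) (blk_ne_zero _ _)]
    rfl
  rw [← e, hr, Nat.factorization_mul hr0 hr0]
  exact ⟨r.factorization q, rfl⟩

/-- deterministic core: no prime in block 1 above block 2 -/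
theorem core1 {m b₂ b₃ b₄ B q : ℕ} (h : Rel m b₂ b₃ b₄ B) (hq : q.Prime) (h1 : b₂ < q)
    (h2 : q ≤ m) (h3 : m < 2 * q) : False := by
  have he := even_of_rel h q
  obtain ⟨r1, r2, r3, r4, -⟩ := h
  rw [blk_fact_one hq h1 h2 h3, blk_fact_zero (by omega : b₃ < q),
    Nat.factorization_factorial_eq_zero_of_lt (by omega : B < q)] at he
  simp at he

theorem core2 {m b₂ b₃ b₄ B q : ℕ} (h : Rel m b₂ b₃ b₄ B) (hq : q.Prime) (h1 : b₄ < q)
    (h2 : q ≤ b₃) (h3 : b₃ < 2 * q) : ∃ n ∈ Ioc b₂ m, q ∣ n := by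
  have he := even_of_rel h q
  obtain ⟨r1, r2, r3, r4, -⟩ := h
  rw [blk_fact_one hq h1 h2 h3,
    Nat.factorization_factorial_eq_zero_of_lt (by omega : B < q)] at he
  by_contra hne
  push Not at hne
  have : (blk b₂ m).factorization q = 0 := by
    rw [blk_fact]
    exact Finset.sum_eq_zero (fun n hn => Nat.factorization_eq_zero_of_not_dvd (hne n hn))
  rw [this] at he
  simp at he

theorem taskHOH : TaskHOH := by
  rintro ⟨δ, η, hδ0, hδ1, hη, X₀, hX₀, hH⟩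
  refine ⟨min (δ / 16) (1 / 10), by positivity, min_le_right _ _, ?_⟩
  set d : ℝ := min (δ / 16) (1 / 10) with hd
  have hd1 : d ≤ δ / 16 := min_le_left _ _
  have hd0 : 0 < d := by positivity
  -- eventual inequalities
  have E1 : ∀ᶠ N : ℕ in atTop, (5 : ℝ) ≤ (N : ℝ) ^ (δ / 16) :=
    ((tendsto_rpow_atTop (by positivity : 0 < δ / 16)).comp
      tendsto_natCast_atTop_atTop).eventually_ge_atTop 5
  have E2 : ∀ᶠ N : ℕ in atTop, Real.log N ≤ (η / 4) * (N : ℝ) ^ (δ / 4) := by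
    have h1 := (isLittleO_log_rpow_atTop (by positivity : 0 < δ / 4)).bound
      (by positivity : 0 < η / 4)
    have h2 := tendsto_natCast_atTop_atTop (R := ℝ) |>.eventually h1
    filter_upwards [h2, eventually_ge_atTop 1] with N hN hN1
    have hN0 : (0:ℝ) ≤ (N:ℝ) ^ (δ/4) := by positivity
    rw [Real.norm_eq_abs, Real.norm_eq_abs, abs_of_nonneg hN0] at hN
    exact (le_abs_self _).trans hN
  have E3 : ∀ᶠ N : ℕ in atTop, (4 * X₀ + 4 : ℝ) ≤ (N : ℝ) ^ (1 - δ / 2) :=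
    ((tendsto_rpow_atTop (by linarith : 0 < 1 - δ / 2)).comp
      tendsto_natCast_atTop_atTop).eventually_ge_atTop _
  filter_upwards [E1, E2, E3, eventually_ge_atTop 2] with N hu5 hlog hbig hN2
  intro m b₂ b₃ b₄ B hNm hmN hrel
  set u : ℝ := (N : ℝ) ^ (δ / 16) with hu
  have hNpos : (0 : ℝ) < N := by positivity
  have hN1 : (1 : ℝ) ≤ N := by exact_mod_cast (by omega : 1 ≤ N)
  have hu0 : 0 < u := by linarith
  have hpow : ∀ k : ℕ, (N : ℝ) ^ (1 - k * (δ / 16)) = N / u ^ k := by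
    intro k
    rw [Real.rpow_sub hNpos, Real.rpow_one, hu, ← Real.rpow_natCast, ← Real.rpow_mul hNpos.le]
    congr 2
    ring
  have hpu4 : (N : ℝ) ^ (δ / 4) = u ^ 4 := by
    rw [hu, ← Real.rpow_natCast, ← Real.rpow_mul hNpos.le]
    congr 1
    push_cast; ring
  have hA : (N : ℝ) ^ (1 - δ / 2) = N / u ^ 8 := by
    rw [← hpow 8]; congr 1; push_cast; ring
  have hY : (N : ℝ) ^ (1 - δ / 4) = N / u ^ 4 := by
    rw [← hpow 4]; congr 1; push_cast; ring
  have hD : (N : ℝ) ^ (1 - δ) = N / u ^ 16 := by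
    rw [← hpow 16]; congr 1; push_cast; ring
  have hL : N / u ≤ (N : ℝ) ^ (1 - d) := by
    have := hpow 1
    rw [pow_one] at this
    rw [← this]
    exact Real.rpow_le_rpow_of_exponent_le hN1 (by push_cast; linarith)
  rw [hA] at hbig
  rw [hpu4] at hlog
  obtain ⟨r1, r2, r3, r4, -⟩ := id hrel
  have hmN' : (m : ℝ) ≤ N := by exact_mod_cast hmN
  have hNm' : (N : ℝ) < 2 * m := by exact_mod_cast hNm
  have hu2 : 25 ≤ u ^ 2 := by nlinarith
  have hu4 : 625 ≤ u ^ 4 := by nlinarith [hu2, sq_nonneg (u^2)]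
  have hu8 : 390625 ≤ u ^ 8 := by nlinarith [hu4]
  -- part A1
  have hA1 : ((m - b₂ : ℕ) : ℝ) ≤ N / u ^ 8 := by
    by_contra hcon
    push Not at hcon
    set Y : ℕ := ⌊(N : ℝ) / u ^ 8⌋₊ with hYdef
    have hYle : (Y : ℝ) ≤ N / u ^ 8 := Nat.floor_le (by positivity)
    have hYlt : (N : ℝ) / u ^ 8 < Y + 1 := Nat.lt_floor_add_one _
    have hYm : Y ≤ m - b₂ := by
      have : (Y : ℝ) < ((m - b₂ : ℕ) : ℝ) := lt_of_le_of_lt hYle hcon
      exact_mod_cast this.le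
    have hY4 : 8 * (Y : ℝ) ≤ N := by
      have : (N : ℝ) / u ^ 8 ≤ N / 8 := by
        apply div_le_div_of_nonneg_left hNpos.le (by norm_num) (by linarith)
      linarith
    have hXeq : ((m - Y : ℕ) : ℝ) = m - Y := by
      rw [Nat.cast_sub (by omega)]
    have hYX : Y ≤ m - Y := by
      have : (Y : ℝ) ≤ ((m - Y : ℕ) : ℝ) := by rw [hXeq]; linarith
      exact_mod_cast this
    have hXX : X₀ ≤ m - Y := by
      have h8 : (N : ℝ) / u ^ 8 ≤ N / 8 := by
        apply div_le_div_of_nonneg_left hNpos.le (by norm_num) (by linarith)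
      have : (X₀ : ℝ) ≤ ((m - Y : ℕ) : ℝ) := by
        rw [hXeq]; linarith [(Nat.cast_nonneg X₀ : (0:ℝ) ≤ X₀)]
      exact_mod_cast this
    have hXN : ((m - Y : ℕ) : ℝ) ≤ N := by rw [hXeq]; linarith [(Nat.cast_nonneg Y : (0:ℝ) ≤ Y)]
    have hcond : ((m - Y : ℕ) : ℝ) ^ (1 - δ) ≤ Y := by
      have h1 : ((m - Y : ℕ) : ℝ) ^ (1 - δ) ≤ (N : ℝ) ^ (1 - δ) :=
        Real.rpow_le_rpow (by positivity) hXN (by linarith)
      rw [hD] at h1
      have h2 : (N : ℝ) / u ^ 16 ≤ (N / u ^ 8) / 2 := by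
        rw [div_div]
        apply div_le_div_of_nonneg_left hNpos.le (by positivity)
        nlinarith [hu8]
      have h3 : (4:ℝ) ≤ N / u ^ 8 := by linarith [(Nat.cast_nonneg X₀ : (0:ℝ) ≤ X₀)]
      linarith
    have hc := hH (m - Y) Y hXX hcond hYX
    have hYpos : (0:ℝ) < Y := by
      have h3 : (4:ℝ) ≤ N / u ^ 8 := by linarith [(Nat.cast_nonneg X₀ : (0:ℝ) ≤ X₀)]
      linarith
    have hX2 : (2:ℝ) ≤ ((m - Y : ℕ) : ℝ) := by exact_mod_cast hX₀.trans hXX
    have hlogpos : 0 < Real.log ((m - Y : ℕ) : ℝ) := Real.log_pos (by linarith)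
    have hpos : (0:ℝ) < (((Ioc (m - Y) (m - Y + Y)).filter Nat.Prime).card : ℝ) :=
      lt_of_lt_of_le (by positivity) hc
    have hpos' : 0 < ((Ioc (m - Y) (m - Y + Y)).filter Nat.Prime).card := by exact_mod_cast hpos
    obtain ⟨q, hq⟩ := Finset.card_pos.mp hpos'
    rw [Finset.mem_filter, Finset.mem_Ioc] at hq
    obtain ⟨⟨hq1, hq2⟩, hqp⟩ := hq
    exact core1 hrel hqp (by omega) (by omega) (by omega)
  refine ⟨?_, ?_⟩
  · refine hA1.trans (le_trans ?_ hL)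
    apply div_le_div_of_nonneg_left hNpos.le hu0
    calc u = u ^ 1 := (pow_one u).symm
      _ ≤ u ^ 8 := pow_le_pow_right₀ (by linarith) (by norm_num)
  -- part A2
  by_contra hcon
  push Not at hcon
  have hcon' : (N : ℝ) / u < ((b₃ - b₄ : ℕ) : ℝ) := lt_of_le_of_lt hL hcon
  set Y : ℕ := ⌊(N : ℝ) / u ^ 4⌋₊ with hYdef
  have hYle : (Y : ℝ) ≤ N / u ^ 4 := Nat.floor_le (by positivity)
  have hYlt : (N : ℝ) / u ^ 4 < Y + 1 := Nat.lt_floor_add_one _
  have h41 : (N : ℝ) / u ^ 4 ≤ (N / u) / 125 := by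
    rw [div_div]
    apply div_le_div_of_nonneg_left hNpos.le (by positivity)
    have : u ^ 3 ≥ 125 := by nlinarith [hu2, hu5]
    nlinarith [this, hu0]
  have hNu : 0 < (N : ℝ) / u := by positivity
  have hYb : Y ≤ b₃ - b₄ := by
    have : (Y : ℝ) < ((b₃ - b₄ : ℕ) : ℝ) := by linarith
    exact_mod_cast this.le
  have hb3 : ((b₃ - b₄ : ℕ) : ℝ) ≤ b₃ := by exact_mod_cast Nat.sub_le _ _
  have hXeq : ((b₃ - Y : ℕ) : ℝ) = b₃ - Y := by rw [Nat.cast_sub (by omega)]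
  have hXlow : (N : ℝ) / u / 2 < ((b₃ - Y : ℕ) : ℝ) := by rw [hXeq]; linarith
  have hYX2 : 2 * Y ≤ b₃ - Y := by
    have : (2 * Y : ℝ) ≤ ((b₃ - Y : ℕ) : ℝ) := by linarith
    exact_mod_cast this
  have h81 : (N : ℝ) / u ^ 8 ≤ (N / u) / 125 := by
    refine le_trans ?_ h41
    apply div_le_div_of_nonneg_left hNpos.le (by positivity)
    exact pow_le_pow_right₀ (by linarith) (by norm_num)
  have hXX : X₀ ≤ b₃ - Y := by
    have : (X₀ : ℝ) ≤ ((b₃ - Y : ℕ) : ℝ) := by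
      linarith [(Nat.cast_nonneg X₀ : (0:ℝ) ≤ X₀)]
    exact_mod_cast this
  have hb3N : (b₃ : ℝ) ≤ N := by exact_mod_cast (by omega : b₃ ≤ N)
  have hXN : ((b₃ - Y : ℕ) : ℝ) ≤ N := by
    rw [hXeq]; linarith [(Nat.cast_nonneg Y : (0:ℝ) ≤ Y)]
  have h48 : (N : ℝ) / u ^ 8 ≤ N / u ^ 4 := by
    apply div_le_div_of_nonneg_left hNpos.le (by positivity)
    exact pow_le_pow_right₀ (by linarith) (by norm_num)
  have h4 : (4:ℝ) ≤ N / u ^ 8 := by linarith [(Nat.cast_nonneg X₀ : (0:ℝ) ≤ X₀)]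
  have hcond : ((b₃ - Y : ℕ) : ℝ) ^ (1 - δ) ≤ Y := by
    have h1 : ((b₃ - Y : ℕ) : ℝ) ^ (1 - δ) ≤ (N : ℝ) ^ (1 - δ) :=
      Real.rpow_le_rpow (by positivity) hXN (by linarith)
    rw [hD] at h1
    have h2 : (N : ℝ) / u ^ 16 ≤ (N / u ^ 8) / 2 := by
      rw [div_div]
      apply div_le_div_of_nonneg_left hNpos.le (by positivity)
      nlinarith [hu8]
    linarith
  have hc := hH (b₃ - Y) Y hXX hcond (by omega)
  have hX2 : (2:ℝ) ≤ ((b₃ - Y : ℕ) : ℝ) := by exact_mod_cast hX₀.trans hXX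
  have hlogpos : 0 < Real.log ((b₃ - Y : ℕ) : ℝ) := Real.log_pos (by linarith)
  have hloglog : Real.log ((b₃ - Y : ℕ) : ℝ) ≤ Real.log N :=
    Real.log_le_log (by linarith) hXN
  have hbY : b₃ - Y + Y = b₃ := by omega
  rw [hbY] at hc
  set P := (Ioc (b₃ - Y) b₃).filter Nat.Prime with hP
  have hex : ∀ q ∈ P, ∃ n, b₂ < n ∧ n ≤ m ∧ q ∣ n := by
    intro q hq
    rw [hP, Finset.mem_filter, Finset.mem_Ioc] at hq
    obtain ⟨⟨hq1, hq2⟩, hqp⟩ := hq
    obtain ⟨n, hn, hdn⟩ := core2 hrel hqp (by omega) hq2 (by omega)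
    rw [Finset.mem_Ioc] at hn
    exact ⟨n, hn.1, hn.2, hdn⟩
  choose! f hf1 hf2 hf3 using hex
  -- the key: t is constant
  have hkey : ∀ q ∈ P, ∀ q' ∈ P, ∀ t t' : ℕ, f q = q * t → f q' = q' * t' → ¬ (t < t') := by
    intro q hq q' hq' t t' ht ht' hlt
    have a1 := hf1 q hq
    have a2 := hf2 q' hq'
    rw [ht] at a1
    rw [ht'] at a2
    rw [hP, Finset.mem_filter, Finset.mem_Ioc] at hq hq'
    obtain ⟨⟨hq1, hq2⟩, hqp⟩ := hq
    obtain ⟨⟨hq1', hq2'⟩, hqp'⟩ := hq'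
    have b1 : b₂ < b₃ * t := lt_of_lt_of_le a1 (Nat.mul_le_mul_right _ hq2)
    have b2 : (b₃ - Y) * (t + 1) ≤ m :=
      le_trans (Nat.mul_le_mul hq1'.le hlt) a2
    have c1 : (b₂ : ℝ) < b₃ * t := by exact_mod_cast b1
    have c2 : ((b₃ - Y : ℕ) : ℝ) * (t + 1) ≤ m := by exact_mod_cast b2
    have c3 : ((m - b₂ : ℕ) : ℝ) = m - b₂ := by rw [Nat.cast_sub r4.le]
    have ht0 : (0:ℝ) ≤ t := Nat.cast_nonneg t
    -- t ≤ 2 u
    have c4 : (t : ℝ) ≤ 2 * u := by
      have : (N : ℝ) / u / 2 * t ≤ N := by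
        calc (N : ℝ) / u / 2 * t ≤ ((b₃ - Y : ℕ) : ℝ) * t := by gcongr
          _ ≤ ((b₃ - Y : ℕ) : ℝ) * (t + 1) := by gcongr; linarith
          _ ≤ m := c2
          _ ≤ N := hmN'
      have h5 : (N : ℝ) / u / 2 * t = N * (t / (2 * u)) := by field_simp
      rw [h5] at this
      have h6 : t / (2 * u) ≤ 1 := by
        by_contra h7
        push Not at h7
        nlinarith
      rwa [div_le_one (by positivity)] at h6
    have c5 : (Y : ℝ) * t ≤ N / u ^ 4 * (2 * u) := by gcongr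
    have c6 : (N : ℝ) / u ^ 4 * (2 * u) ≤ (N / u) / 4 := by
      rw [div_mul_eq_mul_div, div_div, div_le_div_iff₀ (by positivity) (by positivity)]
      have : u ^ 4 ≥ 8 * u * u := by nlinarith [hu2]
      nlinarith [mul_le_mul_of_nonneg_left this hNpos.le]
    rw [hXeq] at c2
    rw [c3] at hA1
    nlinarith
  have hcard : P.card ≤ (Ioc b₂ m).card := by
    refine Finset.card_le_card_of_injOn f ?_ ?_
    · intro q hq
      rw [Finset.coe_Ioc]
      exact ⟨hf1 q hq, hf2 q hq⟩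
    · intro q hq q' hq' hqq
      obtain ⟨t, ht⟩ := hf3 q hq
      obtain ⟨t', ht'⟩ := hf3 q' hq'
      have htt : t = t' := by
        have h1 := hkey q hq q' hq' t t' ht ht'
        have h2 := hkey q' hq' q hq t' t ht' ht
        omega
      subst htt
      have ht0 : 0 < t := by
        rcases Nat.eq_zero_or_pos t with h | h
        · rw [h, mul_zero] at ht
          have := hf1 q hq
          omega
        · exact h
      rw [ht, ht'] at hqq
      exact Nat.eq_of_mul_eq_mul_right ht0 hqq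
  rw [Nat.card_Ioc] at hcard
  have hcard' : (P.card : ℝ) ≤ N / u ^ 8 := le_trans (by exact_mod_cast hcard) hA1
  have hfin : η * Y / Real.log ((b₃ - Y : ℕ) : ℝ) ≤ N / u ^ 8 := hc.trans hcard'
  rw [div_le_iff₀ hlogpos] at hfin
  have hfin2 : η * Y ≤ N / u ^ 8 * (η / 4 * u ^ 4) := by
    refine hfin.trans ?_
    gcongr
    exact hloglog.trans hlog
  have e1 : (N : ℝ) / u ^ 8 * (η / 4 * u ^ 4) = η / 4 * (N / u ^ 4) := by
    field_simp
  rw [e1] at hfin2
  have hYhalf : (N : ℝ) / u ^ 4 / 2 ≤ Y := by linarith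
  nlinarith

end Pool.Agent.H941R3.D6
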